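import Pool.Agent.V5helper35.AS.Stm

/-!
# Project AS (helper35): jobs FIX and OUT
-/

set_option autoImplicit false

namespace Pool.Agent.V5helper6.AS

open Pool.Agent.R387.TC Pool.Agent.N77.CS Pool.Agent.V5helper35.AS

theorem triv_of {n : ℕ} (K1 K : Subgroup (F n)) [K1.Normal] (hKK1 : K ≤ K1) (ψ : MulAut (F n))
    (g h : F n) (hg : ConjMod K ψ g) (hgh : g⁻¹ * h ∈ K1) : Triv K1 (MulAut.conj h⁻¹ * ψ) := by
  intro x
  have e1 : (QuotientGroup.mk' K1 g) = QuotientGroup.mk' K1 h := by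
    have : QuotientGroup.mk' K1 (g⁻¹ * h) = 1 := (QuotientGroup.eq_one_iff _).2 hgh
    rw [map_mul, map_inv, inv_mul_eq_one] at this
    exact this
  have e2 : QuotientGroup.mk' K1 (ψ x) = QuotientGroup.mk' K1 (g * x * g⁻¹) := by
    have : QuotientGroup.mk' K1 (ψ x * (g * x * g⁻¹)⁻¹) = 1 :=
      (QuotientGroup.eq_one_iff _).2 (hKK1 (hg x))
    rw [map_mul, map_inv, mul_inv_eq_one] at this
    exact this
  apply (QuotientGroup.eq_one_iff _).1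
  change QuotientGroup.mk' K1 (_ * _) = 1
  rw [MulAut.mul_apply, MulAut.conj_apply]
  simp only [map_mul, map_inv, inv_inv] at e2 ⊢
  rw [e2, e1]
  group

theorem conj_split {n : ℕ} (h : F n) (ψ : MulAut (F n)) :
    ψ = MulAut.conj h * (MulAut.conj h⁻¹ * ψ) := by
  rw [← mul_assoc, ← map_mul, mul_inv_cancel, map_one, one_mul]

theorem t_FIX : S_FIX := by
  rintro n G G' ⟨hn, hC, H, hN, hH⟩ hle hfin
  refine ⟨hn, ?_, H ⊓ G'.comap MulAut.conj, ?_, ?_⟩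
  · intro V hV hVf
    obtain ⟨K, hc, hf, hK⟩ := hC V (hV.trans hle) (by
      rw [← Subgroup.relIndex_mul_relIndex V G' G hV hle]
      exact mul_ne_zero hVf hfin)
    exact ⟨K, hc, hf, fun ψ hψ => hK ψ (hle hψ)⟩
  · intro L hL hLf
    obtain ⟨K₁, hc1, hf1, hK₁⟩ := hC G' hle hfin
    have hn1 : K₁.Normal := inferInstance
    obtain ⟨K, hc, hf, hKL, hK⟩ := hN (L ⊓ K₁) inferInstance inferInstance
    refine ⟨K, hc, hf, hKL.trans inf_le_left, ?_⟩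
    intro ψ hψ g hg
    obtain ⟨h, hh, hgh⟩ := hK ψ (hle hψ) g hg
    have h4 : MulAut.conj h⁻¹ * ψ ∈ G' :=
      hK₁ _ (G.mul_mem (hH _ (H.inv_mem hh)) (hle hψ))
        (triv_of K₁ K (hKL.trans inf_le_right) ψ g h hg hgh.2)
    refine ⟨h, ⟨hh, ?_⟩, hgh.1⟩
    show MulAut.conj h ∈ G'
    have h5 : MulAut.conj h = ψ * (MulAut.conj h⁻¹ * ψ)⁻¹ := by
      rw [eq_mul_inv_iff_mul_eq]
      exact (conj_split h ψ).symm
    have h6 : ψ * (MulAut.conj h⁻¹ * ψ)⁻¹ ∈ G' := G'.mul_mem hψ (G'.inv_mem h4)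
    rw [← h5] at h6
    exact h6
  · intro h hh
    exact hh.2

theorem t_OUT : S_OUT := by
  rintro n G ⟨hn, hC, H, hN, hH⟩ B hB hfin
  set I := (MulAut.conj (G := F n)).range with hI
  have hVf : (G ⊓ B.comap (QuotientGroup.mk' I)).relIndex G ≠ 0 := by
    rw [Subgroup.inf_relIndex_left, Subgroup.relIndex_comap]
    exact hfin
  obtain ⟨K₁, hc1, hf1, hK₁⟩ := hC _ inf_le_left hVf
  have hn1 : K₁.Normal := inferInstance
  obtain ⟨K, hc, hf, hKK1, hK⟩ := hN K₁ inferInstance hf1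
  refine ⟨K, hc, hf, ?_⟩
  rintro α ⟨ψ, hψ, e⟩ ⟨g₀, hg₀⟩
  have e1 : (ψ : MulAut (F n) ⧸ I) = (α : MulAut (F n) ⧸ I) := e
  obtain ⟨c, hcc⟩ := QuotientGroup.eq.1 e1
  have hα : α = ψ * MulAut.conj c := by rw [hcc, mul_inv_cancel_left]
  have hψ2 : ψ = α * MulAut.conj c⁻¹ := by
    rw [hα, mul_assoc, ← map_mul, mul_inv_cancel, map_one, mul_one]
  have hg : ConjMod K ψ (g₀ * c⁻¹) := by
    intro x
    have h1 := hg₀ (c⁻¹ * x * c)
    have h2 : ψ x = α (c⁻¹ * x * c) := by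
      conv_lhs => rw [hψ2]
      rw [MulAut.mul_apply, MulAut.conj_apply, inv_inv]
    rw [h2]
    have h3 : g₀ * c⁻¹ * x * (g₀ * c⁻¹)⁻¹ = g₀ * (c⁻¹ * x * c) * g₀⁻¹ := by group
    rw [h3]
    exact h1
  obtain ⟨h, hh, hgh⟩ := hK ψ hψ _ hg
  have h4 : MulAut.conj h⁻¹ * ψ ∈ G ⊓ B.comap (QuotientGroup.mk' I) :=
    hK₁ _ (G.mul_mem (hH _ (H.inv_mem hh)) hψ) (triv_of K₁ K hKK1 ψ _ h hg hgh)
  have h5 : (ψ : MulAut (F n) ⧸ I) = ((MulAut.conj h⁻¹ * ψ : MulAut (F n)) : MulAut (F n) ⧸ I) := by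
    conv_lhs => rw [conj_split h ψ]
    rw [QuotientGroup.mk_mul]
    have h6 : ((MulAut.conj h : MulAut (F n)) : MulAut (F n) ⧸ I) = 1 :=
      (QuotientGroup.eq_one_iff _).2 ⟨h, rfl⟩
    rw [h6, one_mul]
  rw [← e1, h5]
  exact h4.2

end Pool.Agent.V5helper6.AS
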